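import Mathlib

/-!
# MP_8f36f1_lc : few witnessing functions for normality always give weak separation (in ZFC)

If fewer than `2 ^ ℵ₁` basic functions witness the normality of `Y`, `#Y = ℵ₁`, then `Y` is weakly
separated, without any cardinal arithmetic assumption; moreover one single function of the family
separates an uncountable subset of any prescribed uncountable subset of `Y`.
-/

namespace Pool.Agent.Results.MP_8f36f1_lc.WeaklySeparated

set_option linter.dupNamespace false

open Cardinal Set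

universe u v

/-- `𝓑 y` is a local base (of open sets) at `y` whose members contain no point of `Y` other
than `y`, for every `y ∈ Y`. -/
def IsBaseSystem {X : Type u} [TopologicalSpace X] (Y : Set X) (𝓑 : Y → Set (Set X)) : Prop :=
  ∀ y : Y, (∀ U ∈ 𝓑 y, IsOpen U ∧ (y : X) ∈ U ∧ ∀ y' : Y, (y' : X) ∈ U → y' = y) ∧
    ∀ V : Set X, IsOpen V → (y : X) ∈ V → ∃ U ∈ 𝓑 y, U ⊆ V

/-- A basic function: a choice of a member of the local base at every point of `Y`. -/
def IsBasic {X : Type u} {Y : Set X} (𝓑 : Y → Set (Set X)) (f : Y → Set X) : Prop :=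
  ∀ y : Y, f y ∈ 𝓑 y

/-- `f` witnesses the normality of `Z ⊆ Y`. -/
def Witnesses {X : Type u} {Y : Set X} (f : Y → Set X) (Z : Set Y) : Prop :=
  (⋃ z ∈ Z, f z) ∩ (⋃ y ∈ Zᶜ, f y) = ∅

/-- The family `F` witnesses the normality of `Y`. -/
def WitnessesNormality {X : Type u} {Y : Set X} (F : Set (Y → Set X)) : Prop :=
  ∀ Z : Set Y, ∃ f ∈ F, Witnesses f Z

/-- The subset `D` of `Y` is separated: its points have pairwise disjoint open
neighbourhoods in `X`. -/
def Separated {X : Type u} [TopologicalSpace X] {Y : Set X} (D : Set Y) : Prop :=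
  ∃ U : Y → Set X, (∀ y ∈ D, IsOpen (U y) ∧ (y : X) ∈ U y) ∧
    ∀ y ∈ D, ∀ y' ∈ D, y ≠ y' → U y ∩ U y' = ∅

/-- `Y` is weakly separated: some uncountable subset of `Y` is separated. -/
def WeaklySeparated {X : Type u} [TopologicalSpace X] (Y : Set X) : Prop :=
  ∃ D : Set Y, ¬ D.Countable ∧ Separated D

section core

variable {Y : Type u} {X : Type v}

/-- a single function of the family which witnesses `Z` separates points on different sides -/
lemma witnesses_disj {X : Type u} {Y : Set X} {f : Y → Set X} {Z : Set Y} (h : Witnesses f Z)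
    {y y' : Y} (hy : ¬ (y ∈ Z ↔ y' ∈ Z)) : f y ∩ f y' = ∅ := by
  rw [Set.eq_empty_iff_forall_notMem]
  rintro x ⟨h1, h2⟩
  have key : ∀ a b : Y, a ∈ Z → b ∉ Z → x ∈ f a → x ∈ f b → False := by
    intro a b ha hb hxa hxb
    have : x ∈ (⋃ z ∈ Z, f z) ∩ (⋃ y ∈ Zᶜ, f y) := by
      refine ⟨?_, ?_⟩
      · simp only [mem_iUnion]; exact ⟨a, ha, hxa⟩
      · simp only [mem_iUnion]; exact ⟨b, hb, hxb⟩
    rw [h] at this
    exact this
  by_cases ha : y ∈ Z
  · by_cases hb : y' ∈ Z
    · exact hy ⟨fun _ => hb, fun _ => ha⟩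
    · exact key y y' ha hb h1 h2
  · by_cases hb : y' ∈ Z
    · exact key y' y hb ha h2 h1
    · exact hy ⟨fun h => absurd h ha, fun h => absurd h hb⟩

end core

/-- **Diagonal lemma** (pure combinatorics).  `J` is a set of labels, every subset `Z` of `Y` gets
a label `w Z`, and `P i` (`i : ι`) are pairwise disjoint subsets of `Y`.  Assume that for every `i`
and every `J`-indexed family of subsets of `P i` there is a subset of `P i` which differs from all
of them on an L-large set.  Then there are one label `j` and `L i`-large sets `D i ⊆ P i` such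
that any two points in different `D i` are split by some `Z` with label `j`. -/
lemma diagonal {Y : Type u} {J : Type u} {ι : Type v} (w : Set Y → J) (P : ι → Set Y)
    (hP : ∀ i i', i ≠ i' → P i ∩ P i' = ∅)
    (L : (i : ι) → Set (P i) → Prop)
    (hL : ∀ i (G : J → Set (P i)), ∃ B : Set (P i), ∀ j, L i (symmDiff B (G j))) :
    ∃ (j : J) (D : (i : ι) → Set (P i)), (∀ i, L i (D i)) ∧
      ∀ i i', i ≠ i' → ∀ p ∈ D i, ∀ p' ∈ D i', ∃ Z : Set Y, w Z = j ∧
        ¬ ((p : Y) ∈ Z ↔ (p' : Y) ∈ Z) := by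
  classical
  -- well-order `ι`
  obtain ⟨r, wo⟩ := exists_wellFoundedLT ι
  let Zof : ((i : ι) → Set (P i)) → Set Y := fun B => {y | ∃ i, ∃ h : y ∈ P i, (⟨y, h⟩ : P i) ∈ B i}
  have hZ : ∀ (B : (i : ι) → Set (P i)) (i : ι) (p : P i), (p : Y) ∈ Zof B ↔ p ∈ B i := by
    intro B i p
    constructor
    · rintro ⟨i', h, hB⟩
      have : i' = i := by
        by_contra hne
        have := hP i' i hne
        rw [Set.eq_empty_iff_forall_notMem] at this
        exact this p ⟨h, p.2⟩
      subst this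
      exact hB
    · intro h
      exact ⟨i, p.2, h⟩
  -- representatives
  let ok : (x : ι) → ((x' : ι) → x' < x → Set (P x')) → J → ((i : ι) → Set (P i)) → Prop :=
    fun x g j B' => (∀ x' (h : x' < x), B' x' = g x' h) ∧ w (Zof B') = j
  let rep : (x : ι) → ((x' : ι) → x' < x → Set (P x')) → J → ((i : ι) → Set (P i)) :=
    fun x g j => if h : ∃ B', ok x g j B' then h.choose else fun _ => ∅
  let step : (x : ι) → ((x' : ι) → x' < x → Set (P x')) → Set (P x) :=
    fun x g => (hL x (fun j => rep x g j x)).choose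
  let B : (i : ι) → Set (P i) := wellFounded_lt.fix step
  have hB : ∀ x, B x = step x (fun x' _ => B x') := fun x => wellFounded_lt.fix_eq step x
  let j := w (Zof B)
  let R : ι → ((i : ι) → Set (P i)) := fun x => rep x (fun x' _ => B x') j
  have hR : ∀ x, ok x (fun x' _ => B x') j (R x) := by
    intro x
    have hex : ∃ B', ok x (fun x' _ => B x') j B' := ⟨B, fun _ _ => rfl, rfl⟩
    have : R x = hex.choose := by
      simp only [R, rep, dif_pos hex]
    rw [this]
    exact hex.choose_spec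
  have hD : ∀ x, L x (symmDiff (B x) (R x x)) := by
    intro x
    have := (hL x (fun j => rep x (fun x' _ => B x') j x)).choose_spec j
    rw [hB x]
    exact this
  refine ⟨j, fun x => symmDiff (B x) (R x x), hD, ?_⟩
  -- the pairs
  have key : ∀ x' x, x' < x → ∀ p ∈ symmDiff (B x) (R x x), ∀ p' ∈ symmDiff (B x') (R x' x'),
      ∃ Z : Set Y, w Z = j ∧ ¬ ((p : Y) ∈ Z ↔ (p' : Y) ∈ Z) := by
    intro x' x hlt p hp p' hp'
    by_cases hv : (p ∈ B x ↔ p' ∈ B x')
    · refine ⟨Zof (R x), (hR x).2, ?_⟩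
      rw [hZ, hZ, (hR x).1 x' hlt]
      rw [Set.mem_symmDiff] at hp
      tauto
    · refine ⟨Zof B, rfl, ?_⟩
      rw [hZ, hZ]
      exact hv
  intro x x' hne p hp p' hp'
  rcases lt_or_gt_of_ne hne with h | h
  · obtain ⟨Z, h1, h2⟩ := key x x' h p' hp' p hp
    exact ⟨Z, h1, fun h3 => h2 h3.symm⟩
  · exact key x' x h p hp p' hp'

/-- an infinite set has a subset which differs from each of fewer than `2 ^ #P` given subsets on a
set of full size -/
lemma exists_far {P : Type u} {J : Type u} [Infinite P] (h : #J < 2 ^ #P) (G : J → Set P) :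
    ∃ B : Set P, ∀ j, #(symmDiff B (G j) : Set P) = #P := by
  classical
  have hinf : ℵ₀ ≤ #P := Cardinal.aleph0_le_mk P
  have hPP : #(P × P) = #P := by
    rw [Cardinal.mk_prod, Cardinal.lift_id, Cardinal.mul_eq_self hinf]
  obtain ⟨e⟩ := Cardinal.eq.1 hPP
  let Bl : Set P → Set P := fun b => {p | (e.symm p).1 ∈ b}
  by_contra hcon
  push Not at hcon
  have hbad : ∀ b : Set P, ∃ j, #(symmDiff (Bl b) (G j) : Set P) < #P := by
    intro b
    obtain ⟨j, hj⟩ := hcon (Bl b)
    exact ⟨j, lt_of_le_of_ne (Cardinal.mk_set_le _) hj⟩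
  choose jj hjj using hbad
  have hinj : Function.Injective jj := by
    intro b b' hbb
    by_contra hne
    obtain ⟨a, ha⟩ : ∃ a, ¬ (a ∈ b ↔ a ∈ b') := by
      by_contra hc
      push Not at hc
      exact hne (Set.ext hc)
    have hsub : (fun q : P => e (a, q)) '' Set.univ ⊆
        (symmDiff (Bl b) (G (jj b)) : Set P) ∪ (symmDiff (Bl b') (G (jj b)) : Set P) := by
      rintro _ ⟨q, -, rfl⟩
      have h1 : e (a, q) ∈ Bl b ↔ a ∈ b := by simp [Bl]
      have h2 : e (a, q) ∈ Bl b' ↔ a ∈ b' := by simp [Bl]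
      simp only [Set.mem_union, Set.mem_symmDiff, h1, h2]
      tauto
    have hcard : #((fun q : P => e (a, q)) '' Set.univ : Set P) = #P := by
      rw [Cardinal.mk_image_eq (fun q q' hq => by simpa using hq), Cardinal.mk_univ]
    have h3 := Cardinal.mk_le_mk_of_subset hsub
    rw [hcard] at h3
    have h4 : #(((symmDiff (Bl b) (G (jj b)) : Set P) ∪
        (symmDiff (Bl b') (G (jj b)) : Set P) : Set P)) < #P :=
      lt_of_le_of_lt (Cardinal.mk_union_le _ _)
        (Cardinal.add_lt_of_lt hinf (hjj b) (by have := hjj b'; rwa [← hbb] at this))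
    exact absurd h3 (not_le.2 h4)
  have := Cardinal.mk_le_of_injective hinj
  rw [Cardinal.mk_set] at this
  exact absurd h (not_lt.2 this)

/-- the large sets used below: nonempty, and of full size if the ambient set is infinite -/
def Large {Y : Type u} (P : Set Y) (D : Set P) : Prop :=
  D.Nonempty ∧ (Infinite P → #D = #P)

lemma exists_large {Y : Type u} {J : Type u} (P : Set Y) (h : #J < 2 ^ #P) (G : J → Set P) :
    ∃ B : Set P, ∀ j, Large P (symmDiff B (G j)) := by
  classical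
  by_cases hinf : Infinite P
  · obtain ⟨B, hB⟩ := exists_far h G
    refine ⟨B, fun j => ⟨?_, fun _ => hB j⟩⟩
    have h1 : #(symmDiff B (G j) : Set P) ≠ 0 := by
      rw [hB j]
      exact Cardinal.mk_ne_zero P
    rw [Cardinal.mk_ne_zero_iff] at h1
    exact Set.nonempty_coe_sort.1 h1
  · have h2 : ∃ B : Set P, B ∉ Set.range G := by
      by_contra hc
      push Not at hc
      have hs : Function.Surjective G := fun B => hc B
      have := Cardinal.mk_le_of_surjective hs
      rw [Cardinal.mk_set] at this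
      exact absurd h (not_lt.2 this)
    obtain ⟨B, hB⟩ := h2
    refine ⟨B, fun j => ⟨?_, fun h => absurd h hinf⟩⟩
    rw [Set.nonempty_iff_ne_empty]
    intro h0
    have : B = G j := by
      have := h0
      rwa [← Set.bot_eq_empty, symmDiff_eq_bot] at this
    exact hB ⟨j, this.symm⟩

/-- **Part A.** -/
theorem partA {X : Type u} {Y : Set X} (F : Set (Y → Set X)) (hF : WitnessesNormality F)
    {ι : Type v} (P : ι → Set Y) (hP : ∀ i i', i ≠ i' → P i ∩ P i' = ∅)
    (hcard : ∀ i, #F < 2 ^ #(P i)) :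
    ∃ f ∈ F, ∃ D : ι → Set Y,
      (∀ i, D i ⊆ P i ∧ (D i).Nonempty ∧ ((P i).Infinite → #(D i) = #(P i))) ∧
      ∀ i i', i ≠ i' → ∀ p ∈ D i, ∀ p' ∈ D i', f p ∩ f p' = ∅ := by
  classical
  choose w hwF hw using hF
  obtain ⟨j, D, hD, hsplit⟩ := diagonal (J := F) (fun Z => (⟨w Z, hwF Z⟩ : F)) P hP
    (fun i => Large (P i)) (fun i G => exists_large (P i) (hcard i) G)
  refine ⟨j.1, j.2, fun i => (Subtype.val '' D i : Set Y), ?_, ?_⟩
  · intro i
    refine ⟨?_, (hD i).1.image _, ?_⟩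
    · rintro _ ⟨p, -, rfl⟩
      exact p.2
    · intro hinf
      rw [Cardinal.mk_image_eq Subtype.val_injective]
      exact (hD i).2 hinf.to_subtype
  · rintro i i' hne _ ⟨p, hp, rfl⟩ _ ⟨p', hp', rfl⟩
    obtain ⟨Z, hZ, hpp⟩ := hsplit i i' hne p hp p' hp'
    have : w Z = j.1 := congrArg Subtype.val hZ
    rw [← this]
    exact witnesses_disj (hw Z) hpp

/-- **Part B.** -/
theorem partB {X : Type u} {Y : Set X} (F : Set (Y → Set X)) (hF : WitnessesNormality F)
    (hY : #Y = ℵ₁) (hcard : #F < 2 ^ (ℵ₁ : Cardinal.{u})) (C : Set Y) (hC : ¬ C.Countable) :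
    ∃ f ∈ F, ∃ E ⊆ C, ¬ E.Countable ∧ ∀ y ∈ E, ∀ y' ∈ E, y ≠ y' → f y ∩ f y' = ∅ := by
  classical
  have hC1 : #C = ℵ₁ := by
    apply le_antisymm
    · rw [← hY]; exact Cardinal.mk_set_le C
    · rw [← Cardinal.succ_aleph0, Order.succ_le_iff]
      rw [← not_le, Cardinal.mk_le_aleph0_iff]
      intro h
      exact hC (Set.countable_coe_iff.1 h)
  have hinf : ℵ₀ ≤ #C := by rw [hC1]; exact Cardinal.aleph0_le_aleph 1
  have hCC : #(C × C) = #C := by
    rw [Cardinal.mk_prod, Cardinal.lift_id, Cardinal.mul_eq_self hinf]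
  obtain ⟨e⟩ := Cardinal.eq.1 hCC
  let P : C → Set Y := fun a => (fun q : C => ((e (a, q) : C) : Y)) '' Set.univ
  have hPmem : ∀ a (y : Y), y ∈ P a → ∃ q : C, ((e (a, q) : C) : Y) = y := by
    rintro a y ⟨q, -, h⟩
    exact ⟨q, h⟩
  have hP : ∀ i i', i ≠ i' → P i ∩ P i' = ∅ := by
    intro i i' hne
    rw [Set.eq_empty_iff_forall_notMem]
    rintro y ⟨h1, h2⟩
    obtain ⟨q, hq⟩ := hPmem i y h1
    obtain ⟨q', hq'⟩ := hPmem i' y h2
    have : e (i, q) = e (i', q') := Subtype.ext (hq.trans hq'.symm)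
    have := e.injective this
    exact hne (congrArg Prod.fst this)
  have hPc : ∀ i, #(P i) = ℵ₁ := by
    intro i
    rw [Cardinal.mk_image_eq, Cardinal.mk_univ, hC1]
    intro q q' hq
    have : e (i, q) = e (i, q') := Subtype.ext hq
    exact congrArg Prod.snd (e.injective this)
  obtain ⟨f, hf, D, hD, hsep⟩ := partA F hF P hP (fun i => by rw [hPc i]; exact hcard)
  choose p hp using fun i => (hD i).2.1
  have hpinj : Function.Injective p := by
    intro i i' h
    by_contra hne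
    have := hP i i' hne
    rw [Set.eq_empty_iff_forall_notMem] at this
    exact this (p i) ⟨(hD i).1 (hp i), by rw [h]; exact (hD i').1 (hp i')⟩
  refine ⟨f, hf, Set.range p, ?_, ?_, ?_⟩
  · rintro _ ⟨i, rfl⟩
    obtain ⟨q, hq⟩ := hPmem i (p i) ((hD i).1 (hp i))
    rw [← hq]
    exact (e (i, q)).2
  · intro hcount
    have h1 : #(Set.range p) = #C := Cardinal.mk_range_eq p hpinj
    have h2 : #(Set.range p) ≤ ℵ₀ := Cardinal.mk_le_aleph0_iff.2 (Set.countable_coe_iff.2 hcount)
    rw [h1, hC1] at h2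
    exact absurd h2 (not_le.2 (by rw [← Cardinal.aleph_zero]; exact Cardinal.aleph_lt_aleph.2 zero_lt_one))
  · rintro _ ⟨i, rfl⟩ _ ⟨i', rfl⟩ hne
    have : i ≠ i' := fun h => hne (by rw [h])
    exact hsep i i' this _ (hp i) _ (hp i')

/-- countable sets are separated by a witnessing family of open sets -/
lemma countable_sep {X : Type u} [TopologicalSpace X] {Y : Set X} (F : Set (Y → Set X))
    (hopen : ∀ f ∈ F, ∀ y : Y, IsOpen (f y) ∧ (y : X) ∈ f y)
    (hF : WitnessesNormality F) (D : Set Y) (hD : D.Countable) :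
    ∃ U : Y → Set X, (∀ y, IsOpen (U y) ∧ (y : X) ∈ U y) ∧
      ∀ y ∈ D, ∀ y' ∈ D, y ≠ y' → U y ∩ U y' = ∅ := by
  classical
  choose w hwF hw using hF
  have : Countable D := Set.countable_coe_iff.2 hD
  obtain ⟨g, hg⟩ := exists_injective_nat D
  refine ⟨fun y => if h : y ∈ D then ⋂ z ∈ {z : D | g z ≤ g ⟨y, h⟩}, w {(z : Y)} y else Set.univ,
    ?_, ?_⟩
  · intro y
    by_cases h : y ∈ D
    · simp only [h, dif_pos]
      constructor
      · apply Set.Finite.isOpen_biInter
        · exact Set.Finite.preimage hg.injOn (Set.finite_le_nat (g ⟨y, h⟩))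
        · intro z _
          exact (hopen _ (hwF _) y).1
      · simp only [mem_iInter]
        intro z _
        exact (hopen _ (hwF _) y).2
    · simp only [h, dif_neg, not_false_eq_true]
      exact ⟨isOpen_univ, mem_univ _⟩
  · have key : ∀ (y y' : Y) (h : y ∈ D) (h' : y' ∈ D), g ⟨y, h⟩ < g ⟨y', h'⟩ →
        (⋂ z ∈ {z : D | g z ≤ g ⟨y, h⟩}, w {(z : Y)} y) ∩
        (⋂ z ∈ {z : D | g z ≤ g ⟨y', h'⟩}, w {(z : Y)} y') = ∅ := by
      intro y y' h h' hlt
      have hne : y' ≠ y := by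
        rintro rfl
        exact lt_irrefl _ hlt
      rw [Set.eq_empty_iff_forall_notMem]
      rintro x ⟨h1, h2⟩
      simp only [mem_iInter] at h1 h2
      have h3 := h1 ⟨y, h⟩ (le_refl (g ⟨y, h⟩))
      have h4 := h2 ⟨y, h⟩ (show g ⟨y, h⟩ ≤ g ⟨y', h'⟩ from le_of_lt hlt)
      have h5 : w {y} y ∩ w {y} y' = ∅ := by
        apply witnesses_disj (hw {y})
        simp [hne]
      rw [Set.eq_empty_iff_forall_notMem] at h5
      exact h5 x ⟨h3, h4⟩
    intro y h y' h' hne
    simp only [h, h', dif_pos]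
    rcases lt_trichotomy (g ⟨y, h⟩) (g ⟨y', h'⟩) with hlt | heq | hgt
    · exact key y y' h h' hlt
    · have := hg heq
      exact absurd (congrArg Subtype.val this) hne
    · rw [Set.inter_comm]
      exact key y' y h' h hgt

/-- **Part C.** -/
theorem partC {X : Type u} [TopologicalSpace X] {Y : Set X} (F : Set (Y → Set X))
    (hopen : ∀ f ∈ F, ∀ y : Y, IsOpen (f y) ∧ (y : X) ∈ f y)
    (hF : WitnessesNormality F) (hcard : #F < 2 ^ (ℵ₀ : Cardinal.{u}))
    {ι : Type v} (P : ι → Set Y) (hP : ∀ i i', i ≠ i' → P i ∩ P i' = ∅)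
    (hinf : ∀ i, (P i).Infinite) :
    ∃ D : Set Y, Separated D ∧ ∀ i, (D ∩ P i).Infinite := by
  classical
  have hsub : ∀ i, ∃ Q : Set Y, Q ⊆ P i ∧ Q.Infinite ∧ Q.Countable := by
    intro i
    obtain ⟨Q, hQ, hQi, hQc⟩ : ∃ Q ⊆ P i, Q.Infinite ∧ Q.Countable := by
      let g := (hinf i).natEmbedding
      refine ⟨Set.range (fun n => ((g n : P i) : Y)), ?_, ?_, Set.countable_range _⟩
      · rintro _ ⟨n, rfl⟩
        exact (g n).2
      · exact Set.infinite_range_of_injective (Subtype.val_injective.comp g.injective)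
    exact ⟨Q, hQ, hQi, hQc⟩
  choose Q hQP hQi hQc using hsub
  have hQ : ∀ i i', i ≠ i' → Q i ∩ Q i' = ∅ := by
    intro i i' hne
    have := hP i i' hne
    rw [Set.eq_empty_iff_forall_notMem] at this ⊢
    exact fun y hy => this y ⟨hQP i hy.1, hQP i' hy.2⟩
  have hQcard : ∀ i, #(Q i) = ℵ₀ := by
    intro i
    have h1 : Infinite (Q i) := (hQi i).to_subtype
    have h2 : Countable (Q i) := Set.countable_coe_iff.2 (hQc i)
    exact Cardinal.mk_eq_aleph0 _
  obtain ⟨f, hf, D, hD, hsep⟩ := partA F hF Q hQ (fun i => by rw [hQcard i]; exact hcard)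
  choose V hV using fun i => countable_sep F hopen hF (D i) ((hQc i).mono (hD i).1)
  have huniq : ∀ (y : Y) i i', y ∈ D i → y ∈ D i' → i = i' := by
    intro y i i' h h'
    by_contra hne
    have := hQ i i' hne
    rw [Set.eq_empty_iff_forall_notMem] at this
    exact this y ⟨(hD i).1 h, (hD i').1 h'⟩
  refine ⟨⋃ i, D i, ?_, ?_⟩
  · refine ⟨fun y => if h : ∃ i, y ∈ D i then f y ∩ V h.choose y else f y, ?_, ?_⟩
    · intro y hy
      have h : ∃ i, y ∈ D i := mem_iUnion.1 hy
      simp only [h, dif_pos]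
      exact ⟨(hopen f hf y).1.inter ((hV h.choose).1 y).1, (hopen f hf y).2,
        ((hV h.choose).1 y).2⟩
    · intro y hy y' hy' hne
      have h : ∃ i, y ∈ D i := mem_iUnion.1 hy
      have h' : ∃ i, y' ∈ D i := mem_iUnion.1 hy'
      simp only [h, h', dif_pos]
      by_cases hc : h.choose = h'.choose
      · have h1 := (hV h.choose).2 y h.choose_spec y' (hc ▸ h'.choose_spec) hne
        rw [Set.eq_empty_iff_forall_notMem] at h1 ⊢
        rintro x ⟨⟨_, hx1⟩, ⟨_, hx2⟩⟩
        exact h1 x ⟨hx1, by rw [hc]; exact hx2⟩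
      · have h1 := hsep _ _ hc y h.choose_spec y' h'.choose_spec
        rw [Set.eq_empty_iff_forall_notMem] at h1 ⊢
        rintro x ⟨⟨hx1, _⟩, ⟨hx2, _⟩⟩
        exact h1 x ⟨hx1, hx2⟩
  · intro i
    have h1 : (D i).Infinite := by
      have h2 := (hD i).2.2 (hQi i)
      rw [hQcard i] at h2
      intro hfin
      have := Set.Finite.lt_aleph0 hfin
      rw [h2] at this
      exact lt_irrefl _ this
    refine h1.mono ?_
    intro y hy
    exact ⟨mem_iUnion.2 ⟨i, hy⟩, hQP i ((hD i).1 hy)⟩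


section ideal

variable {X : Type u} [TopologicalSpace X] {Y : Set X}

lemma sep_mono {D E : Set Y} (h : Separated D) (hED : E ⊆ D) : Separated E := by
  obtain ⟨U, h1, h2⟩ := h
  exact ⟨U, fun y hy => h1 y (hED hy), fun y hy y' hy' => h2 y (hED hy) y' (hED hy')⟩

/-- the separated subsets of `Y` form a `σ`-ideal -/
lemma sep_iUnion (F : Set (Y → Set X))
    (hopen : ∀ f ∈ F, ∀ y : Y, IsOpen (f y) ∧ (y : X) ∈ f y)
    (hF : WitnessesNormality F) (D : ℕ → Set Y) (hD : ∀ n, Separated (D n)) :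
    Separated (⋃ n, D n) := by
  classical
  choose w hwF hw using hF
  choose U hU1 hU2 using hD
  let nn : Y → ℕ := fun y => if h : ∃ n, y ∈ D n then Nat.find h else 0
  have hnn : ∀ y, y ∈ ⋃ n, D n → y ∈ D (nn y) := by
    intro y hy
    have h : ∃ n, y ∈ D n := mem_iUnion.1 hy
    simp only [nn, h, dif_pos]
    exact Nat.find_spec h
  let g : ℕ → Y → Set X := fun m => w {y | nn y = m}
  refine ⟨fun y => U (nn y) y ∩ ⋂ m ∈ {m : ℕ | m ≤ nn y}, g m y, ?_, ?_⟩
  · intro y hy
    refine ⟨(hU1 (nn y) y (hnn y hy)).1.inter ?_, (hU1 (nn y) y (hnn y hy)).2, ?_⟩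
    · exact Set.Finite.isOpen_biInter (Set.finite_le_nat _) (fun m _ => (hopen _ (hwF _) y).1)
    · simp only [mem_iInter]
      exact fun m _ => (hopen _ (hwF _) y).2
  · have key : ∀ y y' : Y, nn y < nn y' →
        (U (nn y) y ∩ ⋂ m ∈ {m : ℕ | m ≤ nn y}, g m y) ∩
        (U (nn y') y' ∩ ⋂ m ∈ {m : ℕ | m ≤ nn y'}, g m y') = ∅ := by
      intro y y' hlt
      rw [Set.eq_empty_iff_forall_notMem]
      rintro x ⟨⟨-, h1⟩, ⟨-, h2⟩⟩
      simp only [mem_iInter] at h1 h2
      have h3 := h1 (nn y) (show nn y ≤ nn y from le_refl _)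
      have h4 := h2 (nn y) (show nn y ≤ nn y' from le_of_lt hlt)
      have h5 : g (nn y) y ∩ g (nn y) y' = ∅ := by
        apply witnesses_disj (hw _)
        simp only [Set.mem_ofPred_eq, true_iff]
        exact ne_of_gt hlt
      rw [Set.eq_empty_iff_forall_notMem] at h5
      exact h5 x ⟨h3, h4⟩
    intro y hy y' hy' hne
    rcases lt_trichotomy (nn y) (nn y') with hlt | heq | hgt
    · exact key y y' hlt
    · have h1 := hU2 (nn y) y (hnn y hy) y' (by rw [heq]; exact hnn y' hy') hne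
      rw [Set.eq_empty_iff_forall_notMem] at h1 ⊢
      rintro x ⟨⟨hx1, -⟩, ⟨hx2, -⟩⟩
      exact h1 x ⟨hx1, by rw [heq]; exact hx2⟩
    · rw [Set.inter_comm]
      exact key y' y hgt

lemma sep_countable (F : Set (Y → Set X))
    (hopen : ∀ f ∈ F, ∀ y : Y, IsOpen (f y) ∧ (y : X) ∈ f y)
    (hF : WitnessesNormality F) (D : Set Y) (hD : D.Countable) : Separated D := by
  obtain ⟨U, h1, h2⟩ := countable_sep F hopen hF D hD
  exact ⟨U, fun y _ => h1 y, h2⟩

lemma sep_union (F : Set (Y → Set X))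
    (hopen : ∀ f ∈ F, ∀ y : Y, IsOpen (f y) ∧ (y : X) ∈ f y)
    (hF : WitnessesNormality F) {D E : Set Y} (hD : Separated D) (hE : Separated E) :
    Separated (D ∪ E) := by
  have h := sep_iUnion F hopen hF (fun n : ℕ => if n = 0 then D else E) (by
    intro n
    by_cases h : n = 0
    · simp only [h, if_pos]; exact hD
    · simp only [h, if_false]; exact hE)
  refine sep_mono h ?_
  rintro y (hy | hy)
  · exact mem_iUnion.2 ⟨0, by simpa using hy⟩
  · exact mem_iUnion.2 ⟨1, by simpa using hy⟩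

/-- `y` and `y'` are on the same side of every set witnessed by `f` -/
def Eqv {X : Type u} {Y : Set X} (f : Y → Set X) (y y' : Y) : Prop :=
  ∀ Z : Set Y, Witnesses f Z → (y ∈ Z ↔ y' ∈ Z)

lemma sep_of_classes {f : Y → Set X} (hopen : ∀ y : Y, IsOpen (f y) ∧ (y : X) ∈ f y)
    (A : Set Y) (h : ∀ y, Separated {y' | y' ∈ A ∧ Eqv f y' y}) : Separated A := by
  classical
  have h' : ∀ C : Set Y, ∃ V : Y → Set X, Separated C →
      (∀ y ∈ C, IsOpen (V y) ∧ (y : X) ∈ V y) ∧
        ∀ y ∈ C, ∀ y' ∈ C, y ≠ y' → V y ∩ V y' = ∅ := by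
    intro C
    by_cases hC : Separated C
    · obtain ⟨V, hV⟩ := hC
      exact ⟨V, fun _ => hV⟩
    · exact ⟨fun _ => ∅, fun h => absurd h hC⟩
  choose V hV using h'
  let Cl : Y → Set Y := fun y => {y' | y' ∈ A ∧ Eqv f y' y}
  have hmem : ∀ y ∈ A, y ∈ Cl y := fun y hy => ⟨hy, fun _ _ => Iff.rfl⟩
  have hCl : ∀ y y', Eqv f y y' → Cl y = Cl y' := by
    intro y y' hyy
    ext z
    constructor
    · rintro ⟨h1, h2⟩
      exact ⟨h1, fun Z hZ => (h2 Z hZ).trans (hyy Z hZ)⟩
    · rintro ⟨h1, h2⟩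
      exact ⟨h1, fun Z hZ => (h2 Z hZ).trans (hyy Z hZ).symm⟩
  refine ⟨fun y => f y ∩ V (Cl y) y, ?_, ?_⟩
  · intro y hy
    have := (hV (Cl y) (h y)).1 y (hmem y hy)
    exact ⟨(hopen y).1.inter this.1, (hopen y).2, this.2⟩
  · intro y hy y' hy' hne
    by_cases he : Eqv f y y'
    · have h1 := (hV (Cl y) (h y)).2 y (hmem y hy) y' (by rw [hCl y y' he]; exact hmem y' hy') hne
      rw [Set.eq_empty_iff_forall_notMem] at h1 ⊢
      rintro x ⟨⟨_, hx1⟩, ⟨_, hx2⟩⟩
      exact h1 x ⟨hx1, by rw [hCl y y' he]; exact hx2⟩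
    · unfold Eqv at he
      push Not at he
      obtain ⟨Z, hZ, hne'⟩ := he
      have h1 : f y ∩ f y' = ∅ := witnesses_disj hZ (by
        rintro ⟨ha, hb⟩
        rcases hne' with ⟨h1, h2⟩ | ⟨h1, h2⟩
        · exact h2 (ha h1)
        · exact h1 (hb h2))
      rw [Set.eq_empty_iff_forall_notMem] at h1 ⊢
      rintro x ⟨⟨hx1, _⟩, ⟨hx2, _⟩⟩
      exact h1 x ⟨hx1, hx2⟩

/-- **Part G.** -/
theorem partG (F : Set (Y → Set X))
    (hopen : ∀ f ∈ F, ∀ y : Y, IsOpen (f y) ∧ (y : X) ∈ f y)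
    (hF : WitnessesNormality F) (hns : ¬ Separated (Set.univ : Set Y)) :
    ∃ R : Set (Set Y), #R ≤ #F * #Y ∧ (∀ C ∈ R, ¬ C.Countable ∧ ¬ Separated C) ∧
      ∀ Z : Set Y, ∃ C ∈ R, C ⊆ Z ∨ C ∩ Z = ∅ := by
  classical
  let cls : F × Y → Set Y := fun q => {y' | Eqv q.1.1 y' q.2}
  refine ⟨{C | C ∈ Set.range cls ∧ ¬ Separated C}, ?_, ?_, ?_⟩
  · calc #{C | C ∈ Set.range cls ∧ ¬ Separated C} ≤ #(Set.range cls) :=
        Cardinal.mk_le_mk_of_subset (fun C hC => hC.1)
      _ ≤ #(F × Y) := Cardinal.mk_range_le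
      _ = #F * #Y := by rw [Cardinal.mk_prod, Cardinal.lift_id, Cardinal.lift_id]
  · rintro C ⟨-, hC⟩
    exact ⟨fun h => hC (sep_countable F hopen hF C h), hC⟩
  · intro Z
    obtain ⟨f, hf, hfZ⟩ := hF Z
    by_contra hcon
    push Not at hcon
    apply hns
    apply sep_of_classes (hopen f hf)
    intro y
    by_contra hy
    have hC : ¬ Separated (cls (⟨f, hf⟩, y)) := by
      intro h
      exact hy (sep_mono h (fun y' h' => h'.2))
    obtain ⟨h1, h2⟩ := hcon _ ⟨⟨_, rfl⟩, hC⟩
    by_cases hyZ : y ∈ Z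
    · exact h1 (fun y' hy' => ((hy' : Eqv f y' y) Z hfZ).2 hyZ)
    · obtain ⟨y', hy', hy'Z⟩ := h2
      exact hyZ (((hy' : Eqv f y' y) Z hfZ).1 hy'Z)

/-- A set `N` of subsets of `Y` is nowhere dense for the topology of countable supports on the power
set of `Y`: every countable partial information `(A, a)` about a subset of `Y` extends to a
countable partial information `(A', a')` which no member of `N` satisfies. -/
def CountablyNowhereDense {Y : Type u} (N : Set (Set Y)) : Prop :=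
  ∀ A a : Set Y, A.Countable → a ⊆ A →
    ∃ A' a' : Set Y, A'.Countable ∧ A ⊆ A' ∧ a' ∩ A = a ∧ ∀ Z ∈ N, Z ∩ A' ≠ a'

/-- **Part F.** -/
theorem partF (F : Set (Y → Set X))
    (hopen : ∀ f ∈ F, ∀ y : Y, IsOpen (f y) ∧ (y : X) ∈ f y)
    (hF : WitnessesNormality F)
    (hcov : ∀ N : F → Set (Set Y), (∀ f, CountablyNowhereDense (N f)) → (⋃ f, N f) ≠ Set.univ) :
    Separated (Set.univ : Set Y) := by
  classical
  choose w hwF hw using hF
  let N : F → Set (Set Y) := fun f => {Z | w Z = f.1}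
  have hnot : ¬ ∀ f, CountablyNowhereDense (N f) := by
    intro h
    apply hcov N h
    rw [Set.eq_univ_iff_forall]
    intro Z
    exact mem_iUnion.2 ⟨⟨w Z, hwF Z⟩, rfl⟩
  push Not at hnot
  obtain ⟨f, hf⟩ := hnot
  unfold CountablyNowhereDense at hf
  push Not at hf
  obtain ⟨A, a, hA, haA, hext⟩ := hf
  have h1 : Separated A := sep_countable F hopen (fun Z => ⟨w Z, hwF Z, hw Z⟩) A hA
  have h2 : Separated Aᶜ := by
    refine ⟨f.1, fun y _ => hopen f.1 f.2 y, ?_⟩
    intro y hy y' hy' hne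
    obtain ⟨Z, hZ, hZA⟩ := hext (A ∪ {y, y'}) (a ∪ {y})
      (hA.union (Set.to_countable _)) Set.subset_union_left (by
        ext z
        simp only [mem_inter_iff, mem_union, mem_singleton_iff]
        constructor
        · rintro ⟨h | h, h'⟩
          · exact h
          · subst h; exact absurd h' hy
        · intro h
          exact ⟨Or.inl h, haA h⟩)
    have hyZ : y ∈ Z := by
      have : y ∈ a ∪ {y} := Or.inr rfl
      rw [← hZA] at this
      exact this.1
    have hy'Z : y' ∉ Z := by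
      intro h
      have : y' ∈ Z ∩ (A ∪ {y, y'}) := ⟨h, Or.inr (Or.inr rfl)⟩
      rw [hZA] at this
      rcases this with h3 | h3
      · exact hy' (haA h3)
      · exact hne h3.symm
    have hwZ : Witnesses f.1 Z := by
      have : w Z = f.1 := hZ
      rw [← this]
      exact hw Z
    exact witnesses_disj hwZ (fun h => hy'Z (h.1 hyZ))
  exact sep_mono (sep_union F hopen (fun Z => ⟨w Z, hwF Z, hw Z⟩) h1 h2) (fun y _ => by
    by_cases h : y ∈ A
    · exact Or.inl h
    · exact Or.inr h)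

end ideal

section cohen

/-- one step of the Cohen-style construction of a subset of `Y`: `st = (T, N)` are the points already
decided to be in, respectively out -/
noncomputable def step {Y : Type u} (Small : Set Y → Prop) (Cone : List Bool → Set Y)
    (st : Set Y × Set Y) (e : List Bool × Bool) : Set Y × Set Y := by
  classical
  exact if Small ((st.1 ∪ st.2 ∪ Cone e.1)ᶜ) then st
    else if e.2 then (st.1 ∪ (Cone e.1 \ st.2), st.2) else (st.1, st.2 ∪ (Cone e.1 \ st.1))

/-- the state after `n` steps -/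
noncomputable def state {Y : Type u} (Small : Set Y → Prop) (Cone : List Bool → Set Y)
    (ent : ℕ → List Bool × Bool) (c : ℕ → ℕ) : ℕ → Set Y × Set Y
  | 0 => (∅, ∅)
  | n + 1 => step Small Cone (state Small Cone ent c n) (ent (c n))

variable {Y : Type u} {Small : Set Y → Prop} {Cone : List Bool → Set Y} {ent : ℕ → List Bool × Bool}

lemma state_congr {c c' : ℕ → ℕ} {n : ℕ} (h : ∀ i < n, c i = c' i) :
    state Small Cone ent c n = state Small Cone ent c' n := by
  induction n with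
  | zero => rfl
  | succ n ih =>
    simp only [state]
    rw [ih (fun i hi => h i (Nat.lt_succ_of_lt hi)), h n (Nat.lt_succ_self n)]

lemma state_disj (c : ℕ → ℕ) (n : ℕ) (y : Y) :
    ¬ (y ∈ (state Small Cone ent c n).1 ∧ y ∈ (state Small Cone ent c n).2) := by
  classical
  induction n with
  | zero => simp [state]
  | succ n ih =>
    simp only [state, step]
    split_ifs with h1 h2
    · exact ih
    · rintro ⟨h3 | h3, h4⟩
      · exact ih ⟨h3, h4⟩
      · exact h3.2 h4
    · rintro ⟨h3, h4 | h4⟩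
      · exact ih ⟨h3, h4⟩
      · exact h4.2 h3

lemma state_mono_succ (c : ℕ → ℕ) (n : ℕ) :
    (state Small Cone ent c n).1 ⊆ (state Small Cone ent c (n + 1)).1 ∧
    (state Small Cone ent c n).2 ⊆ (state Small Cone ent c (n + 1)).2 := by
  classical
  simp only [state, step]
  split_ifs with h1 h2
  · exact ⟨subset_rfl, subset_rfl⟩
  · exact ⟨Set.subset_union_left, subset_rfl⟩
  · exact ⟨subset_rfl, Set.subset_union_left⟩

lemma state_mono (c : ℕ → ℕ) {m n : ℕ} (h : m ≤ n) :
    (state Small Cone ent c m).1 ⊆ (state Small Cone ent c n).1 ∧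
    (state Small Cone ent c m).2 ⊆ (state Small Cone ent c n).2 := by
  induction h with
  | refl => exact ⟨subset_rfl, subset_rfl⟩
  | step h ih =>
    exact ⟨ih.1.trans (state_mono_succ c _).1, ih.2.trans (state_mono_succ c _).2⟩

lemma state_big (hS : ¬ Small (Set.univ : Set Y)) (hmono : ∀ A B : Set Y, A ⊆ B → Small B → Small A)
    (c : ℕ → ℕ) (n : ℕ) :
    ¬ Small ((state Small Cone ent c n).1 ∪ (state Small Cone ent c n).2)ᶜ := by
  classical
  induction n with
  | zero => simpa [state] using hS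
  | succ n ih =>
    simp only [state, step]
    split_ifs with h1 h2
    · exact ih
    · intro h
      apply h1
      refine hmono _ _ ?_ h
      intro y hy
      simp only [mem_compl_iff, mem_union, mem_sdiff] at hy ⊢
      tauto
    · intro h
      apply h1
      refine hmono _ _ ?_ h
      intro y hy
      simp only [mem_compl_iff, mem_union, mem_sdiff] at hy ⊢
      tauto

/-- the set built along `c` -/
def built {Y : Type u} (Small : Set Y → Prop) (Cone : List Bool → Set Y)
    (ent : ℕ → List Bool × Bool) (c : ℕ → ℕ) : Set Y :=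
  {y | ∃ n, y ∈ (state Small Cone ent c n).1}

lemma not_mem_built (c : ℕ → ℕ) (n : ℕ) (y : Y) (hy : y ∈ (state Small Cone ent c n).2) :
    y ∉ built Small Cone ent c := by
  rintro ⟨m, hm⟩
  have h1 := (state_mono (Small := Small) (Cone := Cone) (ent := ent) c (le_max_left m n)).1 hm
  have h2 := (state_mono (Small := Small) (Cone := Cone) (ent := ent) c (le_max_right m n)).2 hy
  exact state_disj c _ y ⟨h1, h2⟩

end cohen


section cohen2

variable {X : Type u} [TopologicalSpace X] {Y : Set X}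

/-- **Part E.** -/
theorem partE (F : Set (Y → Set X))
    (hopen : ∀ f ∈ F, ∀ y : Y, IsOpen (f y) ∧ (y : X) ∈ f y)
    (hF : WitnessesNormality F) (hY : #Y ≤ 2 ^ (ℵ₀ : Cardinal.{u}))
    (hcov : ∀ N : F → Set (ℕ → ℕ), (∀ f, IsMeagre (N f)) → (⋃ f, N f) ≠ Set.univ) :
    Separated (Set.univ : Set Y) := by
  classical
  by_contra hns
  -- distinct reals
  obtain ⟨x, hx⟩ : ∃ x : Y → (ℕ → Bool), Function.Injective x := by
    have h1 : Cardinal.lift.{0} #Y ≤ Cardinal.lift.{u} #(ℕ → Bool) := by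
      have : Cardinal.lift.{u} #(ℕ → Bool) = 2 ^ (ℵ₀ : Cardinal.{u}) := by
        simp
      rw [this]
      simpa using hY
    obtain ⟨e⟩ := Cardinal.lift_mk_le'.1 h1
    exact ⟨e, e.injective⟩
  let Small : Set Y → Prop := fun A => Separated A
  have hmono : ∀ A B : Set Y, A ⊆ B → Small B → Small A := fun A B hAB hB => sep_mono hB hAB
  let Cone : List Bool → Set Y := fun l => {y | (List.range l.length).map (x y) = l}
  let Pref : Y → ℕ → List Bool := fun y k => (List.range k).map (x y)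
  have hCone : ∀ (y y' : Y) (k : ℕ), y' ∈ Cone (Pref y k) ↔ ∀ i < k, x y' i = x y i := by
    intro y y' k
    show (List.range (Pref y k).length).map (x y') = Pref y k ↔ _
    have : (Pref y k).length = k := by simp [Pref]
    rw [this]
    simp only [Pref]
    rw [List.map_inj_left]
    simp only [List.mem_range]
  obtain ⟨ent, hent⟩ : ∃ ent : ℕ → List Bool × Bool, Function.Surjective ent :=
    exists_surjective_nat _
  choose w hwF hw using hF
  have hF : WitnessesNormality F := fun Z => ⟨w Z, hwF Z, hw Z⟩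
  let N : F → Set (ℕ → ℕ) := fun f => {c | w (built Small Cone ent c) = f.1}
  apply hcov N
  swap
  · rw [Set.eq_univ_iff_forall]
    intro c
    exact mem_iUnion.2 ⟨⟨w (built Small Cone ent c), hwF _⟩, rfl⟩
  intro f
  apply IsNowhereDense.isMeagre
  show interior (closure (N f)) = ∅
  rw [Set.eq_empty_iff_forall_notMem]
  intro c₀ hc₀
  obtain ⟨V, ⟨c₁, n, rfl⟩, hc₁, hV⟩ := (PiNat.isTopologicalBasis_cylinders (fun _ : ℕ => ℕ)).exists_subset_of_mem_open
    hc₀ isOpen_interior
  -- density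
  have hdense : ∀ c ∈ PiNat.cylinder c₁ n, ∀ m, ∃ c' ∈ N f, ∀ i < m, c' i = c i := by
    intro c hc m
    have h1 : c ∈ closure (N f) := interior_subset (hV hc)
    rw [mem_closure_iff] at h1
    obtain ⟨c', h2, h3⟩ := h1 (PiNat.cylinder c m) (PiNat.isOpen_cylinder _ _ _)
      (PiNat.self_mem_cylinder _ _)
    exact ⟨c', h3, PiNat.mem_cylinder_iff.1 h2⟩
  -- the undecided part
  have hbig := state_big (Small := Small) (Cone := Cone) (ent := ent) hns hmono c₁ n
  apply hbig
  refine ⟨f.1, fun y _ => hopen f.1 f.2 y, ?_⟩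
  intro y hy y' hy' hne
  -- find `k`
  obtain ⟨k₀, hk₀⟩ : ∃ k₀, x y k₀ ≠ x y' k₀ := by
    by_contra h
    push Not at h
    exact hne (hx (funext h))
  let st := state Small Cone ent c₁ n
  obtain ⟨k, hk, hkS⟩ : ∃ k, k₀ < k ∧
      ¬ Small ((st.1 ∪ st.2)ᶜ \ (Cone (Pref y k) ∪ Cone (Pref y' k))) := by
    by_contra hcon
    push Not at hcon
    apply hbig
    have h1 : Separated (⋃ k, ((st.1 ∪ st.2)ᶜ \ (Cone (Pref y (k₀ + 1 + k)) ∪
        Cone (Pref y' (k₀ + 1 + k))))) :=
      sep_iUnion F hopen hF _ (fun k => hcon (k₀ + 1 + k) (by omega))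
    have h2 : Separated ({y, y'} : Set Y) := sep_countable F hopen hF _ (Set.to_countable _)
    refine sep_mono (sep_union F hopen hF h1 h2) ?_
    intro z hz
    by_cases hzy : z = y
    · exact Or.inr (Or.inl hzy)
    by_cases hzy' : z = y'
    · exact Or.inr (Or.inr hzy')
    left
    obtain ⟨i, hi⟩ : ∃ i, x z i ≠ x y i := by
      by_contra h
      push Not at h
      exact hzy (hx (funext h))
    obtain ⟨j, hj⟩ : ∃ j, x z j ≠ x y' j := by
      by_contra h
      push Not at h
      exact hzy' (hx (funext h))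
    refine mem_iUnion.2 ⟨i + j, hz, ?_⟩
    rintro (h | h)
    · rw [hCone] at h
      exact hi (h i (by omega))
    · rw [hCone] at h
      exact hj (h j (by omega))
  -- the two new entries
  obtain ⟨a, ha⟩ := hent (Pref y k, true)
  obtain ⟨b, hb⟩ := hent (Pref y' k, false)
  let c₂ : ℕ → ℕ := fun i => if i < n then c₁ i else if i = n then a else b
  have hc₂ : c₂ ∈ PiNat.cylinder c₁ n := by
    rw [PiNat.mem_cylinder_iff]
    intro i hi
    simp only [c₂, hi, if_true]
  have hst : state Small Cone ent c₂ n = st :=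
    state_congr (fun i hi => PiNat.mem_cylinder_iff.1 hc₂ i hi)
  have hc₂n : c₂ n = a := by simp [c₂]
  have hc₂n1 : c₂ (n + 1) = b := by simp [c₂]
  have hyU : y ∉ st.1 ∧ y ∉ st.2 := by
    simp only [mem_compl_iff, mem_union] at hy
    tauto
  have hy'U : y' ∉ st.1 ∧ y' ∉ st.2 := by
    simp only [mem_compl_iff, mem_union] at hy'
    tauto
  have hstep1 : state Small Cone ent c₂ (n + 1) = (st.1 ∪ (Cone (Pref y k) \ st.2), st.2) := by
    show step Small Cone (state Small Cone ent c₂ n) (ent (c₂ n)) = _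
    rw [hst, hc₂n, ha]
    unfold step
    rw [if_neg]
    · simp
    · intro h
      apply hkS
      refine hmono _ _ ?_ h
      intro z hz
      simp only [mem_sdiff, mem_compl_iff, mem_union] at hz ⊢
      tauto
  have hstep2 : state Small Cone ent c₂ (n + 2) = (st.1 ∪ (Cone (Pref y k) \ st.2),
      st.2 ∪ (Cone (Pref y' k) \ (st.1 ∪ (Cone (Pref y k) \ st.2)))) := by
    show step Small Cone (state Small Cone ent c₂ (n + 1)) (ent (c₂ (n + 1))) = _
    rw [hstep1, hc₂n1, hb]
    unfold step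
    rw [if_neg]
    · simp
    · intro h
      apply hkS
      refine hmono _ _ ?_ h
      intro z hz
      simp only [mem_sdiff, mem_compl_iff, mem_union] at hz ⊢
      tauto
  obtain ⟨c, hcN, hc⟩ := hdense c₂ hc₂ (n + 2)
  have hstc : state Small Cone ent c (n + 2) = state Small Cone ent c₂ (n + 2) := state_congr hc
  have hyb : y ∈ built Small Cone ent c := by
    refine ⟨n + 2, ?_⟩
    rw [hstc, hstep2]
    exact Or.inr ⟨(hCone y y k).2 (fun _ _ => rfl), hyU.2⟩
  have hy'b : y' ∉ built Small Cone ent c := by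
    apply not_mem_built c (n + 2)
    rw [hstc, hstep2]
    refine Or.inr ⟨(hCone y' y' k).2 (fun _ _ => rfl), ?_⟩
    rintro (h | h)
    · exact hy'U.1 h
    · exact hk₀ ((hCone y y' k).1 h.1 k₀ hk).symm
  have hwc : Witnesses f.1 (built Small Cone ent c) := by
    have : w (built Small Cone ent c) = f.1 := hcN
    rw [← this]
    exact hw _
  exact witnesses_disj hwc (fun h => hy'b (h.1 hyb))

end cohen2

/-- **Main theorem** (ZFC, no assumption on cardinal arithmetic, no assumption on `X`).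
Let `F` be a family of basic functions (for the local bases `𝓑`) which witnesses the normality
of `Y`.

(A) If `#Y = ℵ₁` and `#F < 2 ^ ℵ₁`, then `Y` is weakly separated.

(B) If `#Y = ℵ₁` and `#F < 2 ^ ℵ₁`, then every uncountable `C ⊆ Y` has an uncountable subset `E`
such that `f y` (`y ∈ E`) are pairwise disjoint for one `f ∈ F`; so `E` is separated.

(C) If `P i` (`i : ι`) are pairwise disjoint subsets of `Y` with `#F < 2 ^ #(P i)` for all `i`, then
there are one `f ∈ F` and nonempty `D i ⊆ P i`, of the same size as `P i` whenever `P i` is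
infinite, such that `f p ∩ f p' = ∅` whenever `p`, `p'` are in different `D i`.

(D) If `#F < 2 ^ ℵ₀`, then for every family of pairwise disjoint infinite subsets `P i` of `Y` there
is a separated `D ⊆ Y` which meets every `P i` in an infinite set.

(E) If `#Y ≤ 2 ^ ℵ₀` and the Baire space is not the union of `#F` meagre sets, then `Y` is
separated.

(F) If the power set of `Y` is not the union of `#F` sets which are nowhere dense for the topology
of countable supports, then `Y` is separated.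

(G) If `Y` is not separated, then there is a family `R` of at most `#F * #Y` uncountable, non
separated subsets of `Y` such that every `Z ⊆ Y` contains, or is disjoint from, some `C ∈ R`
(so `R` is a reaping family). -/
theorem result : ∀ (X : Type u) [TopologicalSpace X] (Y : Set X) (𝓑 : Y → Set (Set X)),
    IsBaseSystem Y 𝓑 → ∀ F : Set (Y → Set X), (∀ f ∈ F, IsBasic 𝓑 f) → WitnessesNormality F →
    (#Y = ℵ₁ → #F < 2 ^ (ℵ₁ : Cardinal.{u}) → WeaklySeparated Y) ∧
    (#Y = ℵ₁ → #F < 2 ^ (ℵ₁ : Cardinal.{u}) → ∀ C : Set Y, ¬ C.Countable →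
      ∃ f ∈ F, ∃ E ⊆ C, ¬ E.Countable ∧ Separated E ∧
        ∀ y ∈ E, ∀ y' ∈ E, y ≠ y' → f y ∩ f y' = ∅) ∧
    (∀ (ι : Type v) (P : ι → Set Y), (∀ i i', i ≠ i' → P i ∩ P i' = ∅) →
      (∀ i, #F < 2 ^ #(P i)) →
      ∃ f ∈ F, ∃ D : ι → Set Y,
        (∀ i, D i ⊆ P i ∧ (D i).Nonempty ∧ ((P i).Infinite → #(D i) = #(P i))) ∧
        ∀ i i', i ≠ i' → ∀ p ∈ D i, ∀ p' ∈ D i', f p ∩ f p' = ∅) ∧
    (#F < 2 ^ (ℵ₀ : Cardinal.{u}) → ∀ (ι : Type v) (P : ι → Set Y),
      (∀ i i', i ≠ i' → P i ∩ P i' = ∅) → (∀ i, (P i).Infinite) →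
      ∃ D : Set Y, Separated D ∧ ∀ i, (D ∩ P i).Infinite) ∧
    (#Y ≤ 2 ^ (ℵ₀ : Cardinal.{u}) →
      (∀ N : F → Set (ℕ → ℕ), (∀ f, IsMeagre (N f)) → (⋃ f, N f) ≠ Set.univ) →
      Separated (Set.univ : Set Y)) ∧
    ((∀ N : F → Set (Set Y), (∀ f, CountablyNowhereDense (N f)) → (⋃ f, N f) ≠ Set.univ) →
      Separated (Set.univ : Set Y)) ∧
    (¬ Separated (Set.univ : Set Y) →
      ∃ R : Set (Set Y), #R ≤ #F * #Y ∧ (∀ C ∈ R, ¬ C.Countable ∧ ¬ Separated C) ∧
        ∀ Z : Set Y, ∃ C ∈ R, C ⊆ Z ∨ C ∩ Z = ∅) := by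
  intro X _ Y 𝓑 h𝓑 F hFb hF
  have hopen : ∀ f ∈ F, ∀ y : Y, IsOpen (f y) ∧ (y : X) ∈ f y := fun f hf y =>
    ⟨((h𝓑 y).1 _ (hFb f hf y)).1, ((h𝓑 y).1 _ (hFb f hf y)).2.1⟩
  have hB : #Y = ℵ₁ → #F < 2 ^ (ℵ₁ : Cardinal.{u}) → ∀ C : Set Y, ¬ C.Countable →
      ∃ f ∈ F, ∃ E ⊆ C, ¬ E.Countable ∧ Separated E ∧
        ∀ y ∈ E, ∀ y' ∈ E, y ≠ y' → f y ∩ f y' = ∅ := by
    intro hY hc C hC
    obtain ⟨f, hf, E, hE, hEc, hEs⟩ := partB F hF hY hc C hC
    exact ⟨f, hf, E, hE, hEc, ⟨f, fun y _ => hopen f hf y, hEs⟩, hEs⟩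
  refine ⟨?_, hB, fun ι P hP hc => partA F hF P hP hc, ?_, ?_, ?_, ?_⟩
  · intro hY hc
    have hU : ¬ (Set.univ : Set Y).Countable := by
      intro h
      have h2 : #Y ≤ ℵ₀ := by
        rw [Cardinal.mk_le_aleph0_iff]
        exact Set.countable_univ_iff.1 h
      rw [hY] at h2
      exact absurd h2 (not_le.2 (by
        rw [← Cardinal.aleph_zero]
        exact Cardinal.aleph_lt_aleph.2 zero_lt_one))
    obtain ⟨f, hf, E, hE, hEc, hEs, -⟩ := hB hY hc Set.univ hU
    exact ⟨E, hEc, hEs⟩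
  · intro hc ι P hP hinf
    exact partC F hopen hF hc P hP hinf
  · intro hY hcov
    exact partE F hopen hF hY hcov
  · intro hcov
    exact partF F hopen hF hcov
  · intro hns
    exact partG F hopen hF hns

end Pool.Agent.Results.MP_8f36f1_lc.WeaklySeparated
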